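import Mathlib
import Pool.Agent.H770R2.Kad.Props

open scoped ComplexOrder InnerProductSpace

noncomputable section

namespace H770R2.Kad

open H759R2.Kad

universe u v

theorem prove_gns : G_gns.{u} := by
  intro C _ φ h1 hpos
  letI : PartialOrder C := CStarAlgebra.spectralOrder C
  haveI : StarOrderedRing C := CStarAlgebra.spectralOrderedRing C
  let f : C →ₚ[ℂ] ℂ := PositiveLinearMap.mk₀ φ fun a ha => by
    obtain ⟨b, rfl⟩ := CStarAlgebra.nonneg_iff_eq_star_mul_self.1 ha
    exact hpos b
  have hf : ∀ a, f a = φ a := fun a => rfl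
  have hact : ∀ a : C, f.gnsStarAlgHom a ((f.toPreGNS 1 : f.PreGNS) : f.GNS) =
      ((f.toPreGNS a : f.PreGNS) : f.GNS) := by
    intro a
    have h : f.gnsStarAlgHom a ((f.toPreGNS 1 : f.PreGNS) : f.GNS) =
        ((f.leftMulMapPreGNS a (f.toPreGNS 1) : f.PreGNS) : f.GNS) :=
      f.gnsNonUnitalStarAlgHom_apply_coe
    rw [h, PositiveLinearMap.leftMulMapPreGNS_apply]
    simp
  refine ⟨f.GNS, inferInstance, inferInstance, inferInstance, f.gnsStarAlgHom,
    ((f.toPreGNS 1 : f.PreGNS) : f.GNS), ?_, ?_, ?_⟩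
  · rw [UniformSpace.Completion.norm_coe, f.preGNS_norm_def]
    simp [hf, h1]
  · intro a
    rw [hact, UniformSpace.Completion.inner_coe, f.preGNS_inner_def]
    simp [hf]
  · have h : (fun a => f.gnsStarAlgHom a ((f.toPreGNS 1 : f.PreGNS) : f.GNS)) =
        fun a => ((f.toPreGNS a : f.PreGNS) : f.GNS) := funext hact
    rw [h]
    exact UniformSpace.Completion.denseRange_coe.comp
      f.toPreGNS.surjective.denseRange (UniformSpace.Completion.continuous_coe _)

end H770R2.Kad
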