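import Mathlib
import Pool.Agent.H770R2.Kad.ACProps

open scoped ComplexOrder InnerProductSpace

noncomputable section

namespace H770R2.Kad

open H759R2.Kad

universe u

namespace AAC2

theorem unbdd {E F : Type*} [NormedAddCommGroup E] [NormedSpace ℂ E] [NormedAddCommGroup F]
    [NormedSpace ℂ F] (L : E →ₗ[ℂ] F) (hL : ¬ Continuous L) (ε K : ℝ) (hε : 0 < ε) :
    ∃ x, ‖x‖ ≤ ε ∧ K < ‖L x‖ := by
  by_contra hcon
  push Not at hcon
  apply hL
  refine AddMonoidHomClass.continuous_of_bound L (K / ε) fun x => ?_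
  by_cases hx : x = 0
  · simp [hx]
  have hx' : 0 < ‖x‖ := norm_pos_iff.2 hx
  have h1 : ‖((ε / ‖x‖ : ℝ) : ℂ) • x‖ ≤ ε := by
    rw [norm_smul, Complex.norm_real, Real.norm_of_nonneg (by positivity)]
    exact (div_mul_cancel₀ _ hx'.ne').le
  have h2 := hcon _ h1
  rw [map_smul, norm_smul, Complex.norm_real, Real.norm_of_nonneg (by positivity)] at h2
  rw [div_mul_eq_mul_div, div_le_iff₀ hx'] at h2
  rw [div_mul_eq_mul_div, le_div_iff₀ hε]
  linarith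

end AAC2

theorem prove_rhump : R_hump.{u} := by
  intro H _ _ _ M δ hδ p hp horth
  by_contra hcon
  push Not at hcon
  have hn : ∀ n : ℕ, ∃ x : M.toStarSubalgebra, ‖x‖ ≤ (1 / 2 : ℝ) ^ n ∧
      (n : ℝ) + 3 * ‖δ (p n)‖ < ‖(p n : H →L[ℂ] H) * δ x‖ := by
    intro n
    exact AAC2.unbdd ((LinearMap.mulLeft ℂ (p n : H →L[ℂ] H)).comp δ) (hcon n) _ _ (by positivity)
  choose x hx1 hx2 using hn
  have hpn : ∀ n, ‖(p n : M.toStarSubalgebra)‖ ≤ 1 := by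
    intro n
    have h : ‖(p n : H →L[ℂ] H)‖ * ‖(p n : H →L[ℂ] H)‖ = ‖(p n : H →L[ℂ] H)‖ := by
      have := CStarRing.norm_star_mul_self (x := (p n : H →L[ℂ] H))
      rw [(hp n).1, (hp n).2] at this
      exact this.symm
    have h' : ‖(p n : M.toStarSubalgebra)‖ = ‖(p n : H →L[ℂ] H)‖ := rfl
    rw [h']
    by_contra hc
    have h1 := not_le.1 hc
    nlinarith
  have hpp : ∀ n, p n * p n = p n := by
    intro n
    apply Subtype.ext
    exact (hp n).2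
  have hb : ∀ n, ‖p n * x n‖ ≤ (1 / 2 : ℝ) ^ n := by
    intro n
    calc ‖p n * x n‖ ≤ ‖p n‖ * ‖x n‖ := norm_mul_le _ _
      _ ≤ 1 * (1 / 2 : ℝ) ^ n :=
        mul_le_mul (hpn n) (hx1 n) (norm_nonneg _) zero_le_one
      _ = (1 / 2 : ℝ) ^ n := one_mul _
  have hs : Summable fun n => p n * x n :=
    Summable.of_norm_bounded summable_geometric_two hb
  obtain ⟨z, hz⟩ : ∃ z, z = ∑' n, p n * x n := ⟨_, rfl⟩
  have hz2 : ‖z‖ ≤ 2 := by
    rw [hz]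
    exact tsum_of_norm_bounded hasSum_geometric_two hb
  have hpz : ∀ n, p n * z = p n * x n := by
    intro n
    rw [hz, ← hs.tsum_mul_left, tsum_eq_single n]
    · rw [← mul_assoc, hpp]
    · intro m hm
      rw [← mul_assoc, horth n m hm.symm, zero_mul]
  have key : ∀ n, ‖(p n : H →L[ℂ] H) * δ (x n)‖ ≤ ‖δ z‖ + 3 * ‖δ (p n)‖ := by
    intro n
    have e1 := hδ (p n) z
    have e2 := hδ (p n) (x n)
    rw [hpz, e2] at e1
    have e3 : (p n : H →L[ℂ] H) * δ (x n) = (p n : H →L[ℂ] H) * δ z +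
        (δ (p n) * (z : H →L[ℂ] H) - δ (p n) * (x n : H →L[ℂ] H)) := by
      rw [← add_sub_assoc, ← e1]
      abel
    rw [e3]
    have n1 : ‖(p n : H →L[ℂ] H) * δ z‖ ≤ ‖δ z‖ := by
      calc ‖(p n : H →L[ℂ] H) * δ z‖ ≤ ‖(p n : H →L[ℂ] H)‖ * ‖δ z‖ := norm_mul_le _ _
        _ ≤ 1 * ‖δ z‖ := mul_le_mul_of_nonneg_right (hpn n) (norm_nonneg _)
        _ = ‖δ z‖ := one_mul _
    have n2 : ‖δ (p n) * (z : H →L[ℂ] H)‖ ≤ ‖δ (p n)‖ * 2 :=
      (norm_mul_le _ _).trans (mul_le_mul_of_nonneg_left hz2 (norm_nonneg _))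
    have n3 : ‖δ (p n) * (x n : H →L[ℂ] H)‖ ≤ ‖δ (p n)‖ * 1 := by
      refine (norm_mul_le _ _).trans (mul_le_mul_of_nonneg_left ?_ (norm_nonneg _))
      exact (hx1 n).trans (pow_le_one₀ (by norm_num) (by norm_num))
    calc _ ≤ ‖(p n : H →L[ℂ] H) * δ z‖ +
          (‖δ (p n) * (z : H →L[ℂ] H)‖ + ‖δ (p n) * (x n : H →L[ℂ] H)‖) :=
        (norm_add_le _ _).trans (add_le_add_right (norm_sub_le _ _) _)
      _ ≤ ‖δ z‖ + 3 * ‖δ (p n)‖ := by linarith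
  obtain ⟨n, hn⟩ := exists_nat_gt ‖δ z‖
  have h1 := key n
  have h2 := hx2 n
  linarith

end H770R2.Kad
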