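import Mathlib
import Pool.Agent.H770R2.Kad.ACProps

open scoped ComplexOrder InnerProductSpace

noncomputable section

namespace H770R2.Kad

open H759R2.Kad

universe u

theorem prove_rcont (h1 : R_cen.{u}) (h2 : R_hump.{u}) (h3 : R_fin.{u}) : R_cont.{u} := by
  intro H _ _ _ M δ hδ
  obtain ⟨f, hf, hfc, hLC, hann⟩ := h1 H M δ hδ
  have hff : f * f = f := Subtype.ext hf.2
  -- no infinite orthogonal sequence under `f`
  have hno : NoSeq M (f : H →L[ℂ] H) := by
    rintro ⟨p, hp, horth⟩
    let p' : ℕ → M.toStarSubalgebra := fun n => ⟨p n, (hp n).1⟩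
    obtain ⟨n, hn⟩ := h2 H M δ hδ p' (fun n => (hp n).2.1) fun m n hmn =>
      Subtype.ext (horth m n hmn)
    have e1 : p' n * f = 0 := hann _ hn
    have e2 : f * p' n = p' n := Subtype.ext (hp n).2.2.2
    rw [hfc, e1] at e2
    have e3 : (p' n : H →L[ℂ] H) = 0 := by rw [← e2]; rfl
    exact (hp n).2.2.1 e3
  obtain ⟨k, v, hv⟩ := h3 H M f hf hno
  -- `x ↦ δ (f x)` is continuous
  let V : Submodule ℂ M.toStarSubalgebra := Submodule.span ℂ (Set.range v)
  haveI : FiniteDimensional ℂ V := FiniteDimensional.span_of_finite ℂ (Set.finite_range v)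
  have hmem : ∀ x : M.toStarSubalgebra, f * x ∈ V := by
    intro x
    have e : f * x = f * x * f := by
      rw [mul_assoc, ← hfc x, ← mul_assoc, hff]
    rw [e]
    exact hv x
  have hg : Continuous fun x : M.toStarSubalgebra => (⟨f * x, hmem x⟩ : V) :=
    (continuous_const.mul continuous_id).subtype_mk _
  have hh : Continuous (δ.comp V.subtype) := LinearMap.continuous_of_finiteDimensional _
  have hδf : Continuous fun x => δ (f * x) := hh.comp hg
  have hcoe : Continuous fun x : M.toStarSubalgebra => (x : H →L[ℂ] H) := continuous_subtype_val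
  have hLf : LC M δ f := by
    have e : (fun x => (f : H →L[ℂ] H) * δ x) =
        fun x => δ (f * x) - δ f * (x : H →L[ℂ] H) := by
      funext x
      rw [hδ f x]
      abel
    unfold LC
    rw [e]
    exact hδf.sub (continuous_const.mul hcoe)
  have hf0 : f = 0 := by
    have := hann f hLf
    rwa [hff] at this
  have hcont : Continuous δ := by
    have e : (fun x => ((1 - f : M.toStarSubalgebra) : H →L[ℂ] H) * δ x) = fun x => δ x := by
      funext x
      rw [hf0, sub_zero]
      exact one_mul _
    unfold LC at hLC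
    rw [e] at hLC
    exact hLC
  let D : M.toStarSubalgebra →L[ℂ] (H →L[ℂ] H) := ⟨δ, hcont⟩
  exact ⟨‖D‖, norm_nonneg _, fun a => D.le_opNorm a⟩

end H770R2.Kad
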